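import Pool.Agent.Helper96.TO.High

/-!
# Project TZ (MP_0f6f3f_an), block SLN: root systems of type `A` in coordinates
-/

set_option autoImplicit false

namespace Pool.Agent.Helper69.SLN

open Pool.Agent.Helper96.TO Module

variable {E : Type} [AddCommGroup E] [Module ℝ E] {r : ℕ}

/-- `R = {± β_j, β_k - β_j}` for the elements `β_j` of a basis. -/
def RootA (B : Basis (Fin r) ℝ E) (R : Set E) : Prop :=
  R = {φ | (∃ j, φ = B j) ∨ (∃ j, φ = -B j) ∨ ∃ j k, j ≠ k ∧ φ = B k - B j}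

theorem exists_rootA {R : Set E} (hT : IsTypeA R) (hs : Submodule.span ℝ R = ⊤) (hne : R.Nonempty) [FiniteDimensional ℝ E] (hr : finrank ℝ E = r) :
    ∃ B : Basis (Fin r) ℝ E, RootA B R := by
  obtain ⟨S, hS, hR⟩ := hT
  obtain ⟨x, hx⟩ := hne
  rw [hR] at hx
  obtain ⟨a, ha, -⟩ := hx
  have hLI := (affineIndependent_iff_linearIndependent_vsub ℝ (fun s : S => (s : E)) ⟨a, ha⟩).1 hS
  have hsp : ⊤ ≤ Submodule.span ℝ (Set.range fun i : {x : S // x ≠ ⟨a, ha⟩} => ((i : S) : E) -ᵥ a) := by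
    rw [← hs, Submodule.span_le, hR]
    have key : ∀ c ∈ S, c - a ∈ Submodule.span ℝ (Set.range fun i : {x : S // x ≠ ⟨a, ha⟩} => ((i : S) : E) -ᵥ a) := by
      intro c hc
      by_cases h : c = a
      · rw [h, sub_self]
        exact Submodule.zero_mem _
      · exact Submodule.subset_span ⟨⟨⟨c, hc⟩, fun h1 => h (congrArg Subtype.val h1)⟩, rfl⟩
    rintro _ ⟨c, hc, d, hd, -, rfl⟩
    have := Submodule.sub_mem _ (key c hc) (key d hd)
    rwa [sub_sub_sub_cancel_right] at this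
  let B0 := Basis.mk hLI hsp
  let B1 : Basis (Fin r) ℝ E := finBasisOfFinrankEq ℝ E hr
  let e := B0.indexEquiv B1
  refine ⟨B0.reindex e, ?_⟩
  have hB : ∀ j, B0.reindex e j = ((e.symm j : S) : E) - a := by
    intro j
    rw [Basis.reindex_apply, Basis.mk_apply]
    rfl
  have hin : ∀ j, ((e.symm j : S) : E) ∈ S := fun j => (e.symm j : S).2
  have hne' : ∀ j, ((e.symm j : S) : E) ≠ a := fun j h => (e.symm j).2 (Subtype.ext h)
  have hinj : ∀ j k, j ≠ k → ((e.symm j : S) : E) ≠ ((e.symm k : S) : E) := by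
    intro j k hjk h
    exact hjk (e.symm.injective (Subtype.ext (Subtype.ext h)))
  have hsurj : ∀ c ∈ S, c ≠ a → ∃ j, ((e.symm j : S) : E) = c := by
    intro c hc h
    refine ⟨e ⟨⟨c, hc⟩, fun h1 => h (congrArg Subtype.val h1)⟩, ?_⟩
    rw [Equiv.symm_apply_apply]
  unfold RootA
  rw [hR]
  ext φ
  simp only [Set.mem_ofPred_eq, hB]
  constructor
  · rintro ⟨c, hc, d, hd, hcd, rfl⟩
    by_cases h1 : c = a
    · subst h1
      obtain ⟨j, hj⟩ := hsurj d hd hcd.symm
      right; left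
      exact ⟨j, by rw [hj, neg_sub]⟩
    obtain ⟨k, hk⟩ := hsurj c hc h1
    by_cases h2 : d = a
    · subst h2
      left
      exact ⟨k, by rw [hk]⟩
    obtain ⟨j, hj⟩ := hsurj d hd h2
    right; right
    refine ⟨j, k, ?_, by rw [hk, hj, sub_sub_sub_cancel_right]⟩
    rintro rfl
    exact hcd (hk.symm.trans hj)
  · rintro (⟨j, rfl⟩ | ⟨j, rfl⟩ | ⟨j, k, hjk, rfl⟩)
    · exact ⟨_, hin j, a, ha, hne' j, rfl⟩
    · exact ⟨a, ha, _, hin j, (hne' j).symm, by rw [neg_sub]⟩
    · exact ⟨_, hin k, _, hin j, (hinj j k hjk).symm, by rw [sub_sub_sub_cancel_right]⟩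

variable {B : Basis (Fin r) ℝ E} {R : Set E}

/-- coordinates of the roots -/
theorem RootA.coord (h : RootA B R) {φ : E} (hφ : φ ∈ R) : (∀ m, -1 ≤ B.repr φ m) ∧ (∑ m, B.repr φ m ≤ 1) ∧
    (∑ m, B.repr φ m = 1 → ∀ m, 0 ≤ B.repr φ m) := by
  rw [h] at hφ
  rcases hφ with ⟨j, rfl⟩ | ⟨j, rfl⟩ | ⟨j, k, hjk, rfl⟩
  · simp only [Basis.repr_self]
    refine ⟨fun m => ?_, ?_, fun _ m => ?_⟩
    · rw [Finsupp.single_apply]; split_ifs <;> norm_num
    · rw [Finsupp.univ_sum_single_apply]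
    · rw [Finsupp.single_apply]; split_ifs <;> norm_num
  · simp only [map_neg, Basis.repr_self, Finsupp.neg_apply, Finset.sum_neg_distrib, Finsupp.univ_sum_single_apply]
    refine ⟨fun m => ?_, by norm_num, fun h1 => by norm_num at h1⟩
    rw [Finsupp.single_apply]; split_ifs <;> norm_num
  · simp only [map_sub, Basis.repr_self, Finsupp.sub_apply, Finset.sum_sub_distrib, Finsupp.univ_sum_single_apply]
    refine ⟨fun m => ?_, by norm_num, fun h1 => by norm_num at h1⟩
    rw [Finsupp.single_apply, Finsupp.single_apply]; split_ifs <;> norm_num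

theorem RootA.neg (h : RootA B R) {φ : E} (hφ : φ ∈ R) : -φ ∈ R := by
  rw [h] at hφ ⊢
  rcases hφ with ⟨j, rfl⟩ | ⟨j, rfl⟩ | ⟨j, k, hjk, rfl⟩
  · exact Or.inr (Or.inl ⟨j, rfl⟩)
  · exact Or.inl ⟨j, neg_neg _⟩
  · exact Or.inr (Or.inr ⟨k, j, hjk.symm, neg_sub _ _⟩)

/-- `β_j + β_k` is not a root. -/
theorem RootA.not_add (h : RootA B R) (j k : Fin r) : B j + B k ∉ R ∧ B j + B k ≠ 0 := by
  have e : ∑ m, B.repr (B j + B k) m = 2 := by
    simp only [map_add, Basis.repr_self, Finsupp.add_apply, Finset.sum_add_distrib, Finsupp.univ_sum_single_apply]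
    norm_num
  constructor
  · intro h1
    have := (h.coord h1).2.1
    rw [e] at this
    norm_num at this
  · intro h1
    rw [h1] at e
    simp at e

/-- `β_k - 2 β_j` is not a root. -/
theorem RootA.not_sub (h : RootA B R) {j k : Fin r} (hjk : j ≠ k) : B k - B j - B j ∉ R ∧ B k - B j - B j ≠ 0 := by
  have e : B.repr (B k - B j - B j) j = -2 := by
    simp only [map_sub, Basis.repr_self, Finsupp.sub_apply, Finsupp.single_apply, if_neg hjk.symm]
    norm_num
  constructor
  · intro h1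
    have := (h.coord h1).1 j
    rw [e] at this
    norm_num at this
  · intro h1
    rw [h1] at e
    simp at e

/-- `β_k - β_j + β_l` is not a root. -/
theorem RootA.not_three (h : RootA B R) {j k l : Fin r} (hjk : j ≠ k) (hjl : j ≠ l) : B k - B j + B l ∉ R ∧ B k - B j + B l ≠ 0 := by
  have e : B.repr (B k - B j + B l) j = -1 := by
    simp only [map_sub, map_add, Basis.repr_self, Finsupp.sub_apply, Finsupp.add_apply, Finsupp.single_apply, if_neg hjk.symm, if_neg hjl.symm]
    norm_num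
  have e2 : ∑ m, B.repr (B k - B j + B l) m = 1 := by
    simp only [map_add, map_sub, Basis.repr_self, Finsupp.add_apply, Finsupp.sub_apply, Finset.sum_add_distrib, Finset.sum_sub_distrib, Finsupp.univ_sum_single_apply]
    norm_num
  constructor
  · intro h1
    have := (h.coord h1).2.2 e2 j
    rw [e] at this
    norm_num at this
  · intro h1
    rw [h1] at e
    simp at e

end Pool.Agent.Helper69.SLN
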