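import Mathlib

/-!
# Project TZ (MP_0f6f3f_an), block SLN: an abstract characterisation of `sl(r + 1, ℝ)`

`SlDat x y`: `x y : Fin r → L` satisfy the relations of `E_(0 j)`, `E_(j 0)`, and the elements `x_j`, `y_j`, `[y_j, x_k]` span `L`. Then these elements are a basis of `L` and
the structure constants do not depend on `L`; so `L` is isomorphic to `sl(r + 1, ℝ)`.
-/

set_option autoImplicit false

open Matrix

namespace Pool.Agent.Helper69.SLN

/-- The relations of the matrices `E_(0 j)` and `E_(j 0)`. -/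
structure SlDat {L : Type} [LieRing L] [LieAlgebra ℝ L] {r : ℕ} (x y : Fin r → L) : Prop where
  xx : ∀ j k, ⁅x j, x k⁆ = 0
  yy : ∀ j k, ⁅y j, y k⁆ = 0
  yxx : ∀ j k l, ⁅⁅y j, x k⁆, x l⁆ = -((if j = l then (1 : ℝ) else 0) • x k) - (if j = k then (1 : ℝ) else 0) • x l
  yxy : ∀ j k l, ⁅⁅y j, x k⁆, y l⁆ = (if k = l then (1 : ℝ) else 0) • y j + (if j = k then (1 : ℝ) else 0) • y l
  nx : ∀ j, x j ≠ 0
  ny : ∀ j, y j ≠ 0
  span : ⊤ ≤ Submodule.span ℝ (Set.range x ∪ Set.range y ∪ Set.range fun p : Fin r × Fin r => ⁅y p.1, x p.2⁆)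

namespace SlDat

variable {L : Type} [LieRing L] [LieAlgebra ℝ L] {r : ℕ} {x y : Fin r → L}

theorem exex (h : SlDat x y) (j k l m : Fin r) : ⁅⁅y j, x k⁆, ⁅y l, x m⁆⁆ =
    (if k = l then (1 : ℝ) else 0) • ⁅y j, x m⁆ - (if j = m then (1 : ℝ) else 0) • ⁅y l, x k⁆ := by
  rw [leibniz_lie, h.yxy, h.yxx]
  simp only [add_lie, smul_lie, lie_sub, lie_neg, lie_smul]
  abel

/-- The family of the elements `x_j`, `y_j`, `[y_j, x_k]`. -/
def fam {L : Type} [LieRing L] {r : ℕ} (x y : Fin r → L) : Fin r ⊕ Fin r ⊕ (Fin r × Fin r) → L :=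
  Sum.elim x (Sum.elim y fun p => ⁅y p.1, x p.2⁆)

theorem linIndX (h : SlDat x y) (a : Fin r → ℝ) (ha : ∑ j, a j • x j = 0) (m : Fin r) : a m = 0 := by
  have h1 : ∑ j, a j • ⁅⁅y m, x m⁆, x j⁆ = 0 := by
    have := congrArg (fun z => ⁅⁅y m, x m⁆, z⁆) ha
    simp only [lie_sum, lie_smul, lie_zero] at this
    exact this
  have h2 : ∑ j, a j • ⁅⁅y m, x m⁆, x j⁆ = -(a m • x m) - ∑ j, a j • x j := by
    have e : ∀ j, a j • ⁅⁅y m, x m⁆, x j⁆ = -(if m = j then a j • x m else 0) - a j • x j := by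
      intro j
      rw [h.yxx, if_pos rfl, one_smul, smul_sub, smul_neg]
      split_ifs
      · rw [one_smul]
      · rw [zero_smul, smul_zero]
    simp only [e]
    rw [Finset.sum_sub_distrib, Finset.sum_neg_distrib, Finset.sum_ite_eq, if_pos (Finset.mem_univ m)]
  rw [h2, ha, sub_zero, neg_eq_zero] at h1
  exact (smul_eq_zero.1 h1).resolve_right (h.nx m)

theorem linInd (h : SlDat x y) : LinearIndependent ℝ (fam x y) := by
  rw [Fintype.linearIndependent_iff]
  intro g hg
  rw [Fintype.sum_sum_type, Fintype.sum_sum_type] at hg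
  simp only [fam, Sum.elim_inl, Sum.elim_inr] at hg
  -- the coefficients of `y`
  have hβ : ∀ l, g (Sum.inr (Sum.inl l)) = 0 := by
    intro l
    have h1 := congrArg (fun z => ⁅⁅z, x l⁆, x l⁆) hg
    simp only [add_lie, sum_lie, smul_lie, zero_lie] at h1
    have e1 : ∀ j, ⁅⁅x j, x l⁆, x l⁆ = 0 := fun j => by rw [h.xx, zero_lie]
    have e2 : ∀ p : Fin r × Fin r, ⁅⁅⁅y p.1, x p.2⁆, x l⁆, x l⁆ = 0 := fun p => by
      rw [h.yxx, sub_lie, neg_lie, smul_lie, smul_lie, h.xx, h.xx, smul_zero, smul_zero, neg_zero, sub_zero]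
    have e3 : ∀ j, g (Sum.inr (Sum.inl j)) • ⁅⁅y j, x l⁆, x l⁆ = if j = l then -(2 * g (Sum.inr (Sum.inl j))) • x l else 0 := fun j => by
      rw [h.yxx]
      split_ifs
      · rw [one_smul]
        module
      · simp
    simp only [e1, e2, e3, smul_zero, Finset.sum_const_zero, zero_add, add_zero] at h1
    rw [Finset.sum_ite_eq', if_pos (Finset.mem_univ l)] at h1
    have h2 := (smul_eq_zero.1 h1).resolve_right (h.nx l)
    linarith
  have hα : ∀ l, g (Sum.inl l) = 0 := by
    intro l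
    have h1 := congrArg (fun z => ⁅⁅z, y l⁆, y l⁆) hg
    simp only [add_lie, sum_lie, smul_lie, zero_lie] at h1
    have e1 : ∀ j, ⁅⁅y j, y l⁆, y l⁆ = 0 := fun j => by rw [h.yy, zero_lie]
    have e2 : ∀ p : Fin r × Fin r, ⁅⁅⁅y p.1, x p.2⁆, y l⁆, y l⁆ = 0 := fun p => by
      rw [h.yxy, add_lie, smul_lie, smul_lie, h.yy, h.yy, smul_zero, smul_zero, add_zero]
    have e3 : ∀ j, g (Sum.inl j) • ⁅⁅x j, y l⁆, y l⁆ = if j = l then -(2 * g (Sum.inl j)) • y l else 0 := fun j => by
      rw [← lie_skew (x j) (y l), neg_lie, h.yxy]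
      by_cases hj : j = l
      · subst hj
        simp only [if_true]
        module
      · rw [if_neg hj, if_neg (fun h => hj h.symm), if_neg hj]
        simp
    simp only [e1, e2, e3, smul_zero, Finset.sum_const_zero, add_zero] at h1
    rw [Finset.sum_ite_eq', if_pos (Finset.mem_univ l)] at h1
    have h2 := (smul_eq_zero.1 h1).resolve_right (h.ny l)
    linarith
  have hγ0 : ∑ p : Fin r × Fin r, g (Sum.inr (Sum.inr p)) • ⁅y p.1, x p.2⁆ = 0 := by
    simp only [hα, hβ, zero_smul, Finset.sum_const_zero, zero_add] at hg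
    exact hg
  obtain ⟨T, hT⟩ : ∃ T, T = ∑ j, g (Sum.inr (Sum.inr (j, j))) := ⟨_, rfl⟩
  have hrel : ∀ l k, g (Sum.inr (Sum.inr (l, k))) + (if k = l then T else 0) = 0 := by
    intro l
    apply h.linIndX
    have h1 := congrArg (fun z => ⁅z, x l⁆) hγ0
    simp only [sum_lie, smul_lie, zero_lie] at h1
    rw [Fintype.sum_prod_type] at h1
    simp only [h.yxx] at h1
    have e1 : ∀ j, ∑ k, g (Sum.inr (Sum.inr (j, k))) • (-((if j = l then (1 : ℝ) else 0) • x k) - (if j = k then (1 : ℝ) else 0) • x l) =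
        -(if j = l then ∑ k, g (Sum.inr (Sum.inr (j, k))) • x k else 0) - g (Sum.inr (Sum.inr (j, j))) • x l := by
      intro j
      simp only [smul_sub, smul_neg, Finset.sum_sub_distrib, Finset.sum_neg_distrib]
      congr 1
      · split_ifs
        · simp
        · simp
      · have : ∀ k, g (Sum.inr (Sum.inr (j, k))) • (if j = k then (1 : ℝ) else 0) • x l = if j = k then g (Sum.inr (Sum.inr (j, k))) • x l else 0 := by
          intro k
          split_ifs <;> simp
        simp only [this]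
        rw [Finset.sum_ite_eq, if_pos (Finset.mem_univ j)]
    simp only [e1] at h1
    rw [Finset.sum_sub_distrib, Finset.sum_neg_distrib, Finset.sum_ite_eq', if_pos (Finset.mem_univ l), ← Finset.sum_smul, ← hT] at h1
    simp only [add_smul, ite_smul, zero_smul, Finset.sum_add_distrib]
    rw [Finset.sum_ite_eq', if_pos (Finset.mem_univ l)]
    rw [← neg_eq_zero, ← h1]
    abel
  have hT0 : T = 0 := by
    have h1 : ∑ l : Fin r, (g (Sum.inr (Sum.inr (l, l))) + T) = 0 := by
      refine Finset.sum_eq_zero fun l _ => ?_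
      have := hrel l l
      rwa [if_pos rfl] at this
    rw [Finset.sum_add_distrib, ← hT, Finset.sum_const, Finset.card_univ, Fintype.card_fin, nsmul_eq_mul] at h1
    have h2 : (1 + (r : ℝ)) * T = 0 := by linarith
    have h3 : (1 + (r : ℝ)) ≠ 0 := by positivity
    exact (mul_eq_zero.1 h2).resolve_left h3
  rintro (j | j | ⟨j, k⟩)
  · exact hα j
  · exact hβ j
  · have := hrel j k
    rw [hT0] at this
    simpa using this

/-- The basis. -/
noncomputable def basis (h : SlDat x y) : Module.Basis (Fin r ⊕ Fin r ⊕ (Fin r × Fin r)) ℝ L :=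
  Module.Basis.mk h.linInd (by
    refine h.span.trans (Submodule.span_mono ?_)
    rintro z ((⟨j, rfl⟩ | ⟨j, rfl⟩) | ⟨p, rfl⟩)
    · exact ⟨Sum.inl j, rfl⟩
    · exact ⟨Sum.inr (Sum.inl j), rfl⟩
    · exact ⟨Sum.inr (Sum.inr p), rfl⟩)

theorem basis_x (h : SlDat x y) (j : Fin r) : h.basis (Sum.inl j) = x j := by
  rw [basis, Module.Basis.mk_apply]
  rfl

theorem basis_y (h : SlDat x y) (j : Fin r) : h.basis (Sum.inr (Sum.inl j)) = y j := by
  rw [basis, Module.Basis.mk_apply]
  rfl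

theorem basis_z (h : SlDat x y) (j k : Fin r) : h.basis (Sum.inr (Sum.inr (j, k))) = ⁅y j, x k⁆ := by
  rw [basis, Module.Basis.mk_apply]
  rfl

variable {L' : Type} [LieRing L'] [LieAlgebra ℝ L'] {x' y' : Fin r → L'}

/-- Two Lie algebras with such elements are isomorphic. -/
theorem iso (h : SlDat x y) (h' : SlDat x' y') : Nonempty (L ≃ₗ⁅ℝ⁆ L') := by
  obtain ⟨e, he⟩ : ∃ e : L ≃ₗ[ℝ] L', e = h.basis.equiv h'.basis (Equiv.refl _) := ⟨_, rfl⟩
  have ex : ∀ j, e (x j) = x' j := fun j => by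
    rw [← h.basis_x, ← h'.basis_x, he, Module.Basis.equiv_apply]
    rfl
  have ey : ∀ j, e (y j) = y' j := fun j => by
    rw [← h.basis_y, ← h'.basis_y, he, Module.Basis.equiv_apply]
    rfl
  have ez : ∀ j k, e ⁅y j, x k⁆ = ⁅y' j, x' k⁆ := fun j k => by
    rw [← h.basis_z, ← h'.basis_z, he, Module.Basis.equiv_apply]
    rfl
  have key : ∀ a b : L, e ⁅a, b⁆ = ⁅e a, e b⁆ := by
    have h1 : (LieModule.toEnd ℝ L L : L →ₗ[ℝ] Module.End ℝ L).compr₂ (e : L →ₗ[ℝ] L') =
        (LieModule.toEnd ℝ L' L' : L' →ₗ[ℝ] Module.End ℝ L').compl₁₂ (e : L →ₗ[ℝ] L') (e : L →ₗ[ℝ] L') := by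
      refine h.basis.ext fun i => h.basis.ext fun j => ?_
      change e ⁅h.basis i, h.basis j⁆ = ⁅e (h.basis i), e (h.basis j)⁆
      rcases i with i | i | ⟨i, i'⟩ <;> rcases j with j | j | ⟨j, j'⟩ <;>
        simp only [basis_x, basis_y, basis_z, ex, ey, ez]
      · rw [h.xx, h'.xx, map_zero]
      · rw [← lie_skew, ← lie_skew (x' i), map_neg, ez]
      · rw [← lie_skew, ← lie_skew (x' i), map_neg, h.yxx, h'.yxx]
        simp only [map_sub, map_neg, map_smul, ex]
      · rw [h.yy, h'.yy, map_zero]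
      · rw [← lie_skew, ← lie_skew (y' i), map_neg, h.yxy, h'.yxy]
        simp only [map_add, map_smul, ey]
      · rw [h.yxx, h'.yxx]
        simp only [map_sub, map_neg, map_smul, ex]
      · rw [h.yxy, h'.yxy]
        simp only [map_add, map_smul, ey]
      · rw [h.exex, h'.exex]
        simp only [map_sub, map_smul, ez]
    intro a b
    exact LinearMap.congr_fun (LinearMap.congr_fun h1 a) b
  exact ⟨{ e with map_lie' := fun {a b} => key a b }⟩

end SlDat

section Sl

open LieAlgebra.SpecialLinear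

attribute [local instance 100] LieRing.ofAssociativeRing

variable {r : ℕ}

/-- `E_(0 j)` -/
noncomputable def slX (j : Fin r) : sl (Fin (r + 1)) ℝ := LieAlgebra.SpecialLinear.single 0 j.succ (Fin.succ_ne_zero j).symm (1 : ℝ)

/-- `E_(j 0)` -/
noncomputable def slY (j : Fin r) : sl (Fin (r + 1)) ℝ := LieAlgebra.SpecialLinear.single j.succ 0 (Fin.succ_ne_zero j) (1 : ℝ)

theorem slYX (j k : Fin r) : ((⁅slY j, slX k⁆ : sl (Fin (r + 1)) ℝ) : Matrix (Fin (r + 1)) (Fin (r + 1)) ℝ) =
    Matrix.single j.succ k.succ 1 - (if j = k then (1 : ℝ) else 0) • Matrix.single 0 0 1 := by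
  rw [sl_bracket]
  change Matrix.single j.succ 0 (1 : ℝ) * Matrix.single 0 k.succ 1 - Matrix.single 0 k.succ 1 * Matrix.single j.succ 0 1 = _
  rw [Matrix.single_mul_single_same, mul_one]
  congr 1
  by_cases h : j = k
  · subst h
    rw [if_pos rfl, one_smul, Matrix.single_mul_single_same, mul_one]
  · rw [if_neg h, zero_smul, Matrix.single_mul_single_of_ne]
    exact fun h1 => h (Fin.succ_injective _ h1).symm

theorem slDat : SlDat (slX (r := r)) (slY (r := r)) := by
  have s0 : ∀ j : Fin r, j.succ ≠ (0 : Fin (r + 1)) := fun j => Fin.succ_ne_zero j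
  have s1 : ∀ j : Fin r, (0 : Fin (r + 1)) ≠ j.succ := fun j => (Fin.succ_ne_zero j).symm
  refine ⟨?_, ?_, ?_, ?_, ?_, ?_, ?_⟩
  · intro j k
    apply Subtype.ext
    rw [sl_bracket]
    change Matrix.single 0 j.succ (1 : ℝ) * Matrix.single 0 k.succ 1 - Matrix.single 0 k.succ 1 * Matrix.single 0 j.succ 1 = 0
    rw [Matrix.single_mul_single_of_ne _ _ _ _ (s0 j), Matrix.single_mul_single_of_ne _ _ _ _ (s0 k), sub_zero]
  · intro j k
    apply Subtype.ext
    rw [sl_bracket]
    change Matrix.single j.succ 0 (1 : ℝ) * Matrix.single k.succ 0 1 - Matrix.single k.succ 0 1 * Matrix.single j.succ 0 1 = 0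
    rw [Matrix.single_mul_single_of_ne _ _ _ _ (s1 k), Matrix.single_mul_single_of_ne _ _ _ _ (s1 j), sub_zero]
  · intro j k l
    apply Subtype.ext
    rw [sl_bracket, slYX]
    change (Matrix.single j.succ k.succ 1 - (if j = k then (1 : ℝ) else 0) • Matrix.single 0 0 1) * Matrix.single 0 l.succ (1 : ℝ) -
      Matrix.single 0 l.succ 1 * (Matrix.single j.succ k.succ 1 - (if j = k then (1 : ℝ) else 0) • Matrix.single 0 0 1) =
      -((if j = l then (1 : ℝ) else 0) • Matrix.single 0 k.succ 1) - (if j = k then (1 : ℝ) else 0) • Matrix.single 0 l.succ 1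
    rw [sub_mul, mul_sub, Matrix.smul_mul, Matrix.mul_smul, Matrix.single_mul_single_of_ne _ _ _ _ (s0 k), Matrix.single_mul_single_same,
      Matrix.single_mul_single_of_ne _ _ _ _ (s0 l), mul_one, smul_zero, sub_zero]
    have : Matrix.single 0 l.succ (1 : ℝ) * Matrix.single j.succ k.succ 1 = (if j = l then (1 : ℝ) else 0) • Matrix.single 0 k.succ 1 := by
      by_cases h : j = l
      · subst h
        rw [if_pos rfl, one_smul, Matrix.single_mul_single_same, mul_one]
      · rw [if_neg h, zero_smul, Matrix.single_mul_single_of_ne]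
        exact fun h1 => h (Fin.succ_injective _ h1).symm
    rw [this]
    abel
  · intro j k l
    apply Subtype.ext
    rw [sl_bracket, slYX]
    change (Matrix.single j.succ k.succ 1 - (if j = k then (1 : ℝ) else 0) • Matrix.single 0 0 1) * Matrix.single l.succ 0 (1 : ℝ) -
      Matrix.single l.succ 0 1 * (Matrix.single j.succ k.succ 1 - (if j = k then (1 : ℝ) else 0) • Matrix.single 0 0 1) =
      (if k = l then (1 : ℝ) else 0) • Matrix.single j.succ 0 1 + (if j = k then (1 : ℝ) else 0) • Matrix.single l.succ 0 1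
    rw [sub_mul, mul_sub, Matrix.smul_mul, Matrix.mul_smul, Matrix.single_mul_single_of_ne _ _ _ _ (s1 l), Matrix.single_mul_single_same,
      Matrix.single_mul_single_of_ne _ _ _ _ (s1 j), mul_one, smul_zero, sub_zero]
    have : Matrix.single j.succ k.succ (1 : ℝ) * Matrix.single l.succ 0 1 = (if k = l then (1 : ℝ) else 0) • Matrix.single j.succ 0 1 := by
      by_cases h : k = l
      · subst h
        rw [if_pos rfl, one_smul, Matrix.single_mul_single_same, mul_one]
      · rw [if_neg h, zero_smul, Matrix.single_mul_single_of_ne]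
        exact fun h1 => h (Fin.succ_injective _ h1)
    rw [this]
    abel
  · intro j h
    have h1 := congrArg (fun z : sl (Fin (r + 1)) ℝ => (z : Matrix (Fin (r + 1)) (Fin (r + 1)) ℝ) 0 j.succ) h
    change Matrix.single 0 j.succ (1 : ℝ) 0 j.succ = 0 at h1
    rw [Matrix.single_apply_same] at h1
    exact one_ne_zero h1
  · intro j h
    have h1 := congrArg (fun z : sl (Fin (r + 1)) ℝ => (z : Matrix (Fin (r + 1)) (Fin (r + 1)) ℝ) j.succ 0) h
    change Matrix.single j.succ 0 (1 : ℝ) j.succ 0 = 0 at h1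
    rw [Matrix.single_apply_same] at h1
    exact one_ne_zero h1
  · intro M _
    have hM : M = ∑ j, (M : Matrix (Fin (r + 1)) (Fin (r + 1)) ℝ) 0 (Fin.succ j) • slX j + ∑ j, (M : Matrix (Fin (r + 1)) (Fin (r + 1)) ℝ) (Fin.succ j) 0 • slY j +
        ∑ p : Fin r × Fin r, (M : Matrix (Fin (r + 1)) (Fin (r + 1)) ℝ) (Fin.succ p.1) (Fin.succ p.2) • ⁅slY p.1, slX p.2⁆ := by
      apply Subtype.ext
      have hc : ∀ (a b c : sl (Fin (r + 1)) ℝ), ((a + b + c : sl (Fin (r + 1)) ℝ) : Matrix (Fin (r + 1)) (Fin (r + 1)) ℝ) = (a : Matrix (Fin (r + 1)) (Fin (r + 1)) ℝ) + b + c := fun _ _ _ => rfl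
      rw [hc]
      have hs : ∀ {ι : Type} (s : Finset ι) (c : ι → ℝ) (f : ι → sl (Fin (r + 1)) ℝ), ((∑ i ∈ s, c i • f i : sl (Fin (r + 1)) ℝ) : Matrix (Fin (r + 1)) (Fin (r + 1)) ℝ) =
          ∑ i ∈ s, c i • (f i : Matrix (Fin (r + 1)) (Fin (r + 1)) ℝ) := by
        intro ι s c f
        have := map_sum ((sl (Fin (r + 1)) ℝ).toSubmodule.subtype) (fun i => c i • f i) s
        exact this
      rw [hs, hs, hs]
      simp only [slYX]
      have eX : ∀ j : Fin r, ((slX j : sl (Fin (r + 1)) ℝ) : Matrix (Fin (r + 1)) (Fin (r + 1)) ℝ) = Matrix.single 0 j.succ 1 := fun j => rfl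
      have eY : ∀ j : Fin r, ((slY j : sl (Fin (r + 1)) ℝ) : Matrix (Fin (r + 1)) (Fin (r + 1)) ℝ) = Matrix.single j.succ 0 1 := fun j => rfl
      simp only [eX, eY]
      have htr : (M : Matrix (Fin (r + 1)) (Fin (r + 1)) ℝ).trace = 0 := LinearMap.mem_ker.1 M.2
      rw [Matrix.trace, Fin.sum_univ_succ] at htr
      simp only [Matrix.diag_apply] at htr
      ext a b
      simp only [Matrix.add_apply, Matrix.sum_apply, Matrix.smul_apply, Matrix.sub_apply, smul_eq_mul, Matrix.single_apply]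
      refine Fin.cases ?_ (fun a => ?_) a <;> refine Fin.cases ?_ (fun b => ?_) b
      · simp [Fintype.sum_prod_type]
        linarith
      · simp [(Fin.succ_injective r).eq_iff, s1, s0]
      · simp [(Fin.succ_injective r).eq_iff, s1, s0]
      · simp [(Fin.succ_injective r).eq_iff, s1, Fintype.sum_prod_type, ite_and]
    rw [hM]
    refine Submodule.add_mem _ (Submodule.add_mem _ ?_ ?_) ?_
    · exact Submodule.sum_mem _ fun j _ => Submodule.smul_mem _ _ (Submodule.subset_span (Or.inl (Or.inl ⟨j, rfl⟩)))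
    · exact Submodule.sum_mem _ fun j _ => Submodule.smul_mem _ _ (Submodule.subset_span (Or.inl (Or.inr ⟨j, rfl⟩)))
    · exact Submodule.sum_mem _ fun p _ => Submodule.smul_mem _ _ (Submodule.subset_span (Or.inr ⟨p, rfl⟩))

/-- A Lie algebra with such elements is isomorphic to `sl(r + 1, ℝ)`. -/
theorem SlDat.iso_sl {L : Type} [LieRing L] [LieAlgebra ℝ L] {x y : Fin r → L} (h : SlDat x y) : Nonempty (L ≃ₗ⁅ℝ⁆ sl (Fin (r + 1)) ℝ) :=
  h.iso slDat

end Sl

end Pool.Agent.Helper69.SLN
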