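import Pool.Agent.Helper96.TO.Irr
import Pool.Agent.Helper66.BD.Conn
import Pool.Agent.Helper69.SLN.Dat
import Pool.Agent.Helper69.SLN.Comb

/-!
# Project TZ (MP_0f6f3f_an), block SLN: root spaces of dimension one

`Wv A φ x`: `x` is a weight vector of weight `φ`. `span_weights`: the weight vectors span `L`. `cent_zero`: if the root spaces have dimension one, an element `x` with `θ x = x` which commutes with `A` is zero. `tau`: the
element `t_φ ∈ A`, `κ(t_φ, h) = φ(h)`. `rel`: the relation `2 (β, α) = (α, α)`.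
-/

set_option autoImplicit false

open Matrix

namespace Pool.Agent.Helper69.SLN

open Pool.Agent.Helper96.SA Pool.Agent.Helper96.TO

variable {L : Type} [LieRing L] [LieAlgebra ℝ L] {N : ℕ} {θ : L ≃ₗ⁅ℝ⁆ L} {b : Module.Basis (Fin N) ℝ L} {A : Submodule ℝ L}

/-- `x` is a weight vector of weight `φ`. -/
def Wv (A : Submodule ℝ L) (φ : Module.Dual ℝ A) (x : L) : Prop := ∀ h : A, ⁅(h : L), x⁆ = φ h • x

theorem Wv.lie {φ ψ : Module.Dual ℝ A} {x y : L} (hx : Wv A φ x) (hy : Wv A ψ y) : Wv A (φ + ψ) ⁅x, y⁆ := by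
  intro h
  rw [leibniz_lie, hx h, hy h, smul_lie, lie_smul, LinearMap.add_apply, add_smul]

theorem Wv.neg {φ : Module.Dual ℝ A} {x : L} (hx : Wv A φ x) : Wv A φ (-x) := by
  intro h
  rw [lie_neg, hx h, smul_neg]

theorem Wv.smul {φ : Module.Dual ℝ A} {x : L} (hx : Wv A φ x) (c : ℝ) : Wv A φ (c • x) := by
  intro h
  rw [lie_smul, hx h, smul_comm]

theorem Wv.theta (hA : MaxFlat θ A) {φ : Module.Dual ℝ A} {x : L} (hx : Wv A φ x) : Wv A (-φ) (θ x) := by
  intro h
  have h1 : (h : L) = θ (-(h : L)) := by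
    rw [map_neg, hA.neg _ h.2, neg_neg]
  rw [h1, ← LieEquiv.map_lie, neg_lie, hx h, map_neg, map_smul, LinearMap.neg_apply, neg_smul]

theorem Wv.eq_zero {φ : Module.Dual ℝ A} {x : L} (hx : Wv A φ x) (hφ : φ ∉ rootsL A) (h0 : φ ≠ 0) : x = 0 := by
  by_contra h
  exact hφ ⟨h0, x, h, hx⟩

/-- The form `-κ(x, θ x)` is positive definite. -/
theorem pos (h : CartanBasis θ b) {x : L} (hx : x ≠ 0) : 0 < -killingForm ℝ L x (θ x) := by
  have h1 : -killingForm ℝ L x (θ x) = ∑ i, b.repr x i ^ 2 := by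
    have h2 : θ x = ∑ i, b.repr x i • θ (b i) := by
      conv_lhs => rw [← b.sum_repr x]
      simp only [map_sum, map_smul]
    rw [h2, map_sum, ← Finset.sum_neg_distrib]
    refine Finset.sum_congr rfl fun i _ => ?_
    rw [map_smul, smul_eq_mul, sq, coord_to h x i]
    ring
  rw [h1]
  obtain ⟨i, hi⟩ : ∃ i, b.repr x i ≠ 0 := by
    by_contra hcon
    push Not at hcon
    apply hx
    apply b.repr.injective
    ext i
    rw [hcon i, map_zero]
    rfl
  exact Finset.sum_pos' (fun i _ => sq_nonneg _) ⟨i, Finset.mem_univ i, by positivity⟩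

theorem isAdj_autG {b : Module.Basis (Fin N) ℝ L} : IsAdj b (autG b) := by
  refine isAdj_of_finiteIndex (Pool.Agent.Helper66.BD.isClosed_autG b) le_rfl ?_
  rw [Subgroup.subgroupOf_self]
  infer_instance

theorem span_weights (h : CartanBasis θ b) (hA : MaxFlat θ A) :
    Submodule.span ℝ {x : L | ∃ φ : Module.Dual ℝ A, Wv A φ x} = ⊤ := by
  have hG : IsAdj b (autG b) := isAdj_autG
  have hV := isFlat_map h hG hA
  have key : ∀ Z ∈ Submodule.span ℝ {Z | ∃ D ∈ A.map (TT_to b), Wt (autG b) (A.map (TT_to b)) D Z},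
      ∃ x ∈ Submodule.span ℝ {x : L | ∃ φ : Module.Dual ℝ A, Wv A φ x}, TT_to b x = Z := by
    intro Z hZ
    induction hZ using Submodule.span_induction with
    | mem Z hZ =>
      obtain ⟨D, hD, hZ1, hZ2⟩ := hZ
      obtain ⟨x, rfl⟩ := TT_surj_to h hZ1
      let φ : Module.Dual ℝ A := (Matrix.traceLinearMap (Fin N) ℝ ℝ) ∘ₗ (LinearMap.mulLeft ℝ D) ∘ₗ (TT_to b) ∘ₗ A.subtype
      refine ⟨x, Submodule.subset_span ⟨φ, fun a => ?_⟩, rfl⟩
      apply TT_inj_to h
      rw [TT_lie_to, map_smul, hZ2 _ ⟨(a : L), a.2, rfl⟩]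
      rfl
    | zero => exact ⟨0, Submodule.zero_mem _, map_zero _⟩
    | add Z Z' _ _ h1 h2 =>
      obtain ⟨x, hx, rfl⟩ := h1
      obtain ⟨y, hy, rfl⟩ := h2
      exact ⟨x + y, Submodule.add_mem _ hx hy, map_add _ _ _⟩
    | smul c Z _ h1 =>
      obtain ⟨x, hx, rfl⟩ := h1
      exact ⟨c • x, Submodule.smul_mem _ _ hx, map_smul _ _ _⟩
  rw [eq_top_iff]
  intro x _
  obtain ⟨y, hy, hxy⟩ := key (TT_to b x) (decomp hG.closed hV (TT_mem_to b x))
  rwa [← TT_inj_to h hxy]

/-- The center is trivial. -/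
theorem center_zero (h : CartanBasis θ b) {x : L} (hx : ∀ z : L, ⁅x, z⁆ = 0) : x = 0 := by
  apply TT_inj_to h
  have h1 : LieAlgebra.ad ℝ L x = 0 := by
    ext z
    exact hx z
  rw [TT_apply_to, h1, map_zero, map_zero]

/-- An element which commutes with the weight vectors is zero. -/
theorem eq_zero_of_weights (h : CartanBasis θ b) (hA : MaxFlat θ A) {x : L}
    (hx : ∀ (φ : Module.Dual ℝ A) (z : L), Wv A φ z → ⁅x, z⁆ = 0) : x = 0 := by
  refine center_zero h fun z => ?_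
  have hz : z ∈ Submodule.span ℝ {x : L | ∃ φ : Module.Dual ℝ A, Wv A φ x} := by
    rw [span_weights h hA]
    exact Submodule.mem_top
  induction hz using Submodule.span_induction with
  | mem z hz =>
    obtain ⟨φ, hφ⟩ := hz
    exact hx φ z hφ
  | zero => exact lie_zero _
  | add z w _ _ h1 h2 => rw [lie_add, h1, h2, add_zero]
  | smul c z _ h1 => rw [lie_smul, h1, smul_zero]

/-- Generators of an ideal. -/
def gensW (A : Submodule ℝ L) : Set L :=
  {z | ∃ φ ∈ rootsL A, Wv A φ z} ∪ {w | ∃ φ ∈ rootsL A, ∃ y z, Wv A φ y ∧ Wv A (-φ) z ∧ w = ⁅y, z⁆}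

theorem gens_top [hs : LieAlgebra.IsSimple ℝ L] (h : CartanBasis θ b) (hA : MaxFlat θ A) (hne : (rootsL A).Nonempty) :
    Submodule.span ℝ (gensW A) = ⊤ := by
  -- weight vectors for nonzero weights
  have hmem : ∀ (φ : Module.Dual ℝ A) (z : L), φ ≠ 0 → Wv A φ z → z ∈ Submodule.span ℝ (gensW A) := by
    intro φ z h0 hz
    by_cases hr : φ ∈ rootsL A
    · exact Submodule.subset_span (Or.inl ⟨φ, hr, hz⟩)
    · rw [hz.eq_zero hr h0]
      exact Submodule.zero_mem _
  have hbr : ∀ (u : L) (ψ : Module.Dual ℝ A), Wv A ψ u → ∀ g ∈ gensW A, ⁅u, g⁆ ∈ Submodule.span ℝ (gensW A) := by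
    intro u ψ hu g hg
    rcases hg with ⟨φ, hφ, hg⟩ | ⟨φ, hφ, y, z, hy, hz, rfl⟩
    · by_cases h1 : ψ + φ = 0
      · have h2 : ψ = -φ := eq_neg_of_add_eq_zero_left h1
        rw [h2] at hu
        rw [← lie_skew]
        exact Submodule.neg_mem _ (Submodule.subset_span (Or.inr ⟨φ, hφ, g, u, hg, hu, rfl⟩))
      · exact hmem _ _ h1 (hu.lie hg)
    · by_cases h1 : ψ = 0
      · rw [leibniz_lie]
        refine Submodule.add_mem _ ?_ ?_
        · refine Submodule.subset_span (Or.inr ⟨φ, hφ, ⁅u, y⁆, z, ?_, hz, rfl⟩)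
          have := hu.lie hy
          rwa [h1, zero_add] at this
        · refine Submodule.subset_span (Or.inr ⟨φ, hφ, y, ⁅u, z⁆, hy, ?_, rfl⟩)
          have := hu.lie hz
          rwa [h1, zero_add] at this
      · refine hmem ψ _ h1 ?_
        have := hu.lie (hy.lie hz)
        rwa [add_neg_cancel, add_zero] at this
  let I : LieIdeal ℝ L :=
    { Submodule.span ℝ (gensW A) with
      lie_mem := fun {x m} hm => by
        change ⁅x, m⁆ ∈ Submodule.span ℝ (gensW A)
        have hm' : m ∈ Submodule.span ℝ (gensW A) := hm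
        clear hm
        induction hm' using Submodule.span_induction with
        | mem m hm =>
          have hx : x ∈ Submodule.span ℝ {x : L | ∃ φ : Module.Dual ℝ A, Wv A φ x} := by
            rw [span_weights h hA]
            exact Submodule.mem_top
          induction hx using Submodule.span_induction with
          | mem x hx =>
            obtain ⟨ψ, hψ⟩ := hx
            exact hbr x ψ hψ m hm
          | zero =>
            rw [zero_lie]
            exact Submodule.zero_mem _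
          | add x y _ _ h1 h2 =>
            rw [add_lie]
            exact Submodule.add_mem _ h1 h2
          | smul c x _ h1 =>
            rw [smul_lie]
            exact Submodule.smul_mem _ _ h1
        | zero =>
          rw [lie_zero]
          exact Submodule.zero_mem _
        | add m m' _ _ h1 h2 =>
          rw [lie_add]
          exact Submodule.add_mem _ h1 h2
        | smul c m _ h1 =>
          rw [lie_smul]
          exact Submodule.smul_mem _ _ h1 }
  have hI : ∀ x, x ∈ I ↔ x ∈ Submodule.span ℝ (gensW A) := fun x => Iff.rfl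
  rcases hs.eq_bot_or_eq_top I with h1 | h1
  · exfalso
    obtain ⟨φ, hφ⟩ := hne
    obtain ⟨-, x, hx0, hx⟩ := id hφ
    have h2 : x ∈ I := Submodule.subset_span (Or.inl ⟨φ, hφ, hx⟩)
    rw [h1, LieSubmodule.mem_bot] at h2
    exact hx0 h2
  · rw [eq_top_iff]
    intro x _
    rw [← hI, h1]
    exact LieSubmodule.mem_top x

/-- An element `x` with `θ x = x` which commutes with `A` is zero, if the root spaces have dimension one. -/
theorem cent_zero [LieAlgebra.IsSimple ℝ L] (h : CartanBasis θ b) (hA : MaxFlat θ A) (hne : (rootsL A).Nonempty)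
    (h1 : ∀ φ ∈ rootsL A, ∀ y z : L, Wv A φ y → Wv A φ z → y ≠ 0 → ∃ c : ℝ, z = c • y) {x : L} (hx : θ x = x) (hxA : Wv A 0 x) : x = 0 := by
  have h2 : ∀ φ ∈ rootsL A, ∀ y : L, Wv A φ y → ⁅x, y⁆ = 0 := by
    intro φ hφ y hy
    by_cases hy0 : y = 0
    · rw [hy0, lie_zero]
    have h3 := hxA.lie hy
    rw [zero_add] at h3
    obtain ⟨c, hc⟩ := h1 φ hφ y _ hy h3 hy0
    have h4 : killingForm ℝ L ⁅x, y⁆ (θ y) = -killingForm ℝ L y (θ ⁅x, y⁆) := by
      have := LieModule.traceForm_apply_lie_apply' ℝ L L x y (θ y)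
      rw [LieEquiv.map_lie, hx]
      exact this
    rw [hc, map_smul, map_smul, map_smul, LinearMap.smul_apply, smul_eq_mul] at h4
    have h5 := pos h hy0
    have h6 : c = 0 := by
      by_contra hc0
      have : c * killingForm ℝ L y (θ y) = 0 := by linarith
      rcases mul_eq_zero.1 this with h7 | h7
      · exact hc0 h7
      · rw [h7] at h5
        norm_num at h5
    rw [hc, h6, zero_smul]
  refine center_zero h fun z => ?_
  have hz : z ∈ Submodule.span ℝ (gensW A) := by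
    rw [gens_top h hA hne]
    exact Submodule.mem_top
  induction hz using Submodule.span_induction with
  | mem z hz =>
    rcases hz with ⟨φ, hφ, hz⟩ | ⟨φ, hφ, y, w, hy, hw, rfl⟩
    · exact h2 φ hφ z hz
    · rw [leibniz_lie, h2 φ hφ y hy, zero_lie, zero_add]
      by_cases hw0 : w = 0
      · rw [hw0, lie_zero, lie_zero]
      · have hnr : -φ ∈ rootsL A := ⟨neg_ne_zero.2 hφ.1, w, hw0, hw⟩
        rw [h2 _ hnr w hw, lie_zero]
  | zero => exact lie_zero _
  | add z w _ _ h3 h4 => rw [lie_add, h3, h4, add_zero]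
  | smul c z _ h3 => rw [lie_smul, h3, smul_zero]

/-- The weight space of `0` is `A`. -/
theorem mem_of_zero [LieAlgebra.IsSimple ℝ L] (h : CartanBasis θ b) (hA : MaxFlat θ A) (hne : (rootsL A).Nonempty)
    (h1 : ∀ φ ∈ rootsL A, ∀ y z : L, Wv A φ y → Wv A φ z → y ≠ 0 → ∃ c : ℝ, z = c • y) {x : L} (hx : Wv A 0 x) : x ∈ A := by
  have h2 := hx.theta hA
  rw [neg_zero] at h2
  have h3 : Wv A 0 (x + θ x) := by
    intro a
    rw [lie_add, hx a, h2 a, smul_add]
  have h4 : x + θ x = 0 := cent_zero h hA hne h1 (by rw [map_add, h.invol, add_comm]) h3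
  refine hA.max x (eq_neg_of_add_eq_zero_right h4) fun y hy => ?_
  have := hx ⟨y, hy⟩
  rw [LinearMap.zero_apply, zero_smul] at this
  rw [← lie_skew, this, neg_zero]

/-- `κ(h, ·)` on `A`. -/
noncomputable def kA (A : Submodule ℝ L) : A →ₗ[ℝ] Module.Dual ℝ A := (killingForm ℝ L).domRestrict₁₂ A A

theorem kA_apply (a a' : A) : kA A a a' = killingForm ℝ L (a : L) (a' : L) := rfl

theorem kA_self (h : CartanBasis θ b) (hA : MaxFlat θ A) {a : A} (ha : a ≠ 0) : 0 < kA A a a := by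
  have h1 := pos h (x := (a : L)) (fun h2 => ha (Subtype.ext h2))
  rw [hA.neg _ a.2, map_neg, neg_neg] at h1
  exact h1

theorem kA_injective (h : CartanBasis θ b) (hA : MaxFlat θ A) : Function.Injective (kA A) := by
  rw [injective_iff_map_eq_zero]
  intro a ha
  by_contra h0
  have h1 := kA_self h hA h0
  rw [ha, LinearMap.zero_apply] at h1
  exact lt_irrefl _ h1

/-- The element `t_φ` with `κ(t_φ, h) = φ(h)`. -/
theorem exists_tau (h : CartanBasis θ b) (hA : MaxFlat θ A) : ∃ τ : Module.Dual ℝ A ≃ₗ[ℝ] A, ∀ (φ : Module.Dual ℝ A) (a : A),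
    killingForm ℝ L (τ φ : L) (a : L) = φ a := by
  have hF : Module.Finite ℝ L := Module.Finite.of_basis b
  obtain ⟨e, he⟩ : ∃ e : A ≃ₗ[ℝ] Module.Dual ℝ A, e = LinearMap.linearEquivOfInjective (kA A) (kA_injective h hA) (Subspace.dual_finrank_eq).symm := ⟨_, rfl⟩
  have he' : ∀ a, e a = kA A a := fun a => by rw [he]; rfl
  refine ⟨e.symm, fun φ a => ?_⟩
  have h1 := he' (e.symm φ)
  rw [LinearEquiv.apply_symm_apply] at h1
  exact (LinearMap.congr_fun h1 a).symm

section Rel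

variable {τ : Module.Dual ℝ A ≃ₗ[ℝ] A} (hτ : ∀ (φ : Module.Dual ℝ A) (a : A), killingForm ℝ L (τ φ : L) (a : L) = φ a)

include hτ in
theorem tau_symm (φ ψ : Module.Dual ℝ A) : φ (τ ψ) = ψ (τ φ) := by
  rw [← hτ φ (τ ψ), ← hτ ψ (τ φ)]
  exact LieModule.traceForm_comm ℝ L L _ _

include hτ in
theorem tau_pos (h : CartanBasis θ b) (hA : MaxFlat θ A) {φ : Module.Dual ℝ A} (hφ : φ ≠ 0) : 0 < φ (τ φ) := by
  have h1 := kA_self h hA (a := τ φ) (fun h2 => hφ (τ.map_eq_zero_iff.1 h2))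
  rw [kA_apply, hτ] at h1
  exact h1

include hτ in
/-- `[x, y] = κ(x, y) t_φ` for `x` of weight `φ` and `y` of weight `-φ`. -/
theorem lie_tau [LieAlgebra.IsSimple ℝ L] (h : CartanBasis θ b) (hA : MaxFlat θ A) (hne : (rootsL A).Nonempty)
    (h1 : ∀ φ ∈ rootsL A, ∀ y z : L, Wv A φ y → Wv A φ z → y ≠ 0 → ∃ c : ℝ, z = c • y) {φ : Module.Dual ℝ A} {x y : L}
    (hx : Wv A φ x) (hy : Wv A (-φ) y) : ⁅x, y⁆ = killingForm ℝ L x y • (τ φ : L) := by
  have h2 : ⁅x, y⁆ ∈ A := by
    refine mem_of_zero h hA hne h1 ?_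
    have := hx.lie hy
    rwa [add_neg_cancel] at this
  have h3 : (⟨⁅x, y⁆, h2⟩ : A) = killingForm ℝ L x y • τ φ := by
    apply kA_injective h hA
    ext a
    rw [map_smul, LinearMap.smul_apply, kA_apply, kA_apply, hτ]
    change killingForm ℝ L ⁅x, y⁆ (a : L) = _
    have h4 : killingForm ℝ L ⁅x, y⁆ (a : L) = killingForm ℝ L x ⁅y, (a : L)⁆ := LieModule.traceForm_apply_lie_apply ℝ L L x y (a : L)
    rw [h4, ← lie_skew, hy a, LinearMap.neg_apply, neg_smul, neg_neg, map_smul, smul_eq_mul, smul_eq_mul, mul_comm]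
  exact congrArg Subtype.val h3

include hτ in
/-- The relation `2 (β, α) = (α, α)`. -/
theorem rel [LieAlgebra.IsSimple ℝ L] (h : CartanBasis θ b) (hA : MaxFlat θ A) (hne : (rootsL A).Nonempty)
    (h1 : ∀ φ ∈ rootsL A, ∀ y z : L, Wv A φ y → Wv A φ z → y ≠ 0 → ∃ c : ℝ, z = c • y) {α β : Module.Dual ℝ A}
    (hα : α ∈ rootsL A) (hβ : β ∈ rootsL A) (hs : β - α ∈ rootsL A) (hp : α + β ∉ rootsL A) (hp0 : α + β ≠ 0)
    (hm : β - α - α ∉ rootsL A) (hm0 : β - α - α ≠ 0) : 2 * β (τ α) = α (τ α) := by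
  obtain ⟨hα0, x, hx0, hx⟩ := hα
  obtain ⟨hβ0, z, hz0, hz⟩ := hβ
  obtain ⟨-, w, hw0, hw⟩ := hs
  change Wv A α x at hx
  change Wv A β z at hz
  change Wv A (β - α) w at hw
  have hposα := tau_pos hτ h hA hα0
  obtain ⟨y, hy⟩ : ∃ y, y = -θ x := ⟨_, rfl⟩
  have hyw : Wv A (-α) y := by
    rw [hy]
    exact (hx.theta hA).neg
  obtain ⟨κ, hκ⟩ : ∃ κ, κ = killingForm ℝ L x y := ⟨_, rfl⟩
  have hκp : 0 < κ := by
    rw [hκ, hy, map_neg]
    exact pos h hx0
  have hxy : ⁅x, y⁆ = κ • (τ α : L) := by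
    rw [hκ]
    exact lie_tau hτ h hA hne h1 hx hyw
  have hyx : ⁅y, x⁆ = -(κ • (τ α : L)) := by
    rw [← lie_skew, hxy]
  by_contra hcon
  -- (a)
  have ha : β (τ α) = 0 := by
    have e1 : ⁅x, z⁆ = 0 := (hx.lie hz).eq_zero hp hp0
    have hw' : Wv A (β - α) ⁅y, z⁆ := by
      have := hyw.lie hz
      rwa [neg_add_eq_sub] at this
    have e2 : ⁅x, ⁅y, z⁆⁆ = (κ * β (τ α)) • z := by
      rw [leibniz_lie, hxy, e1, lie_zero, add_zero, smul_lie, hz (τ α), smul_smul]
    have e3 : ⁅y, ⁅y, z⁆⁆ = 0 := by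
      have := hyw.lie hw'
      rw [neg_add_eq_sub] at this
      exact this.eq_zero hm hm0
    have e4 : (κ * (β - α) (τ α) + κ * β (τ α)) • ⁅y, z⁆ = 0 := by
      have h2 : ⁅x, ⁅y, ⁅y, z⁆⁆⁆ = 0 := by rw [e3, lie_zero]
      rw [leibniz_lie, hxy, e2, smul_lie, hw' (τ α), lie_smul, smul_smul, ← add_smul] at h2
      exact h2
    rcases smul_eq_zero.1 e4 with h2 | h2
    · exfalso
      apply hcon
      rw [LinearMap.sub_apply, ← mul_add] at h2
      have := (mul_eq_zero.1 h2).resolve_left hκp.ne'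
      linarith
    · rw [h2, lie_zero] at e2
      have := (smul_eq_zero.1 e2.symm).resolve_right hz0
      exact (mul_eq_zero.1 this).resolve_left hκp.ne'
  have hb : (β - α) (τ α) = 0 := by
    have e1 : ⁅y, w⁆ = 0 := by
      have := hyw.lie hw
      rw [neg_add_eq_sub] at this
      exact this.eq_zero hm hm0
    have hz' : Wv A β ⁅x, w⁆ := by
      have := hx.lie hw
      rwa [add_sub_cancel] at this
    have e2 : ⁅y, ⁅x, w⁆⁆ = -((κ * (β - α) (τ α)) • w) := by
      rw [leibniz_lie, hyx, e1, lie_zero, add_zero, neg_lie, smul_lie, hw (τ α), smul_smul]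
    have e3 : ⁅x, ⁅x, w⁆⁆ = 0 := (hx.lie hz').eq_zero hp hp0
    have e4 : (κ * β (τ α) + κ * (β - α) (τ α)) • ⁅x, w⁆ = 0 := by
      have h2 : ⁅y, ⁅x, ⁅x, w⁆⁆⁆ = 0 := by rw [e3, lie_zero]
      rw [leibniz_lie, hyx, e2, neg_lie, smul_lie, hz' (τ α), lie_neg, lie_smul, smul_smul, ← neg_add, ← add_smul, neg_eq_zero] at h2
      exact h2
    rcases smul_eq_zero.1 e4 with h2 | h2
    · exfalso
      apply hcon
      rw [LinearMap.sub_apply, ← mul_add] at h2
      have := (mul_eq_zero.1 h2).resolve_left hκp.ne'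
      linarith
    · rw [h2, lie_zero] at e2
      have := (smul_eq_zero.1 (neg_eq_zero.1 e2.symm)).resolve_right hw0
      exact (mul_eq_zero.1 this).resolve_left hκp.ne'
  rw [LinearMap.sub_apply, ha, zero_sub, neg_eq_zero] at hb
  exact hposα.ne' hb

end Rel

/-- The roots span the dual of `A`. -/
theorem span_roots (h : CartanBasis θ b) (hA : MaxFlat θ A) : Submodule.span ℝ (rootsL A) = ⊤ := by
  have hF : Module.Finite ℝ L := Module.Finite.of_basis b
  by_contra hcon
  obtain ⟨f, hf0, hf⟩ := Submodule.exists_le_ker_of_lt_top _ (lt_top_iff_ne_top.2 hcon)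
  obtain ⟨a, rfl⟩ := (Module.evalEquiv ℝ A).surjective f
  apply hf0
  have ha : (a : L) = 0 := by
    refine eq_zero_of_weights h hA fun φ z hz => ?_
    rw [hz a]
    by_cases hφ : φ ∈ rootsL A
    · have := hf (Submodule.subset_span hφ)
      rw [LinearMap.mem_ker, Module.evalEquiv_apply, Module.Dual.eval_apply] at this
      rw [this, zero_smul]
    · by_cases h0 : φ = 0
      · rw [h0, LinearMap.zero_apply, zero_smul]
      · rw [hz.eq_zero hφ h0, smul_zero]
  have ha' : a = 0 := Subtype.ext ha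
  rw [ha', map_zero]

theorem roots_nonempty (h : CartanBasis θ b) (hA : MaxFlat θ A) (h2 : 1 ≤ Module.finrank ℝ A) : (rootsL A).Nonempty := by
  have hF : Module.Finite ℝ L := Module.Finite.of_basis b
  rw [Set.nonempty_iff_ne_empty]
  intro h0
  have h1 := span_roots h hA
  rw [h0, Submodule.span_empty] at h1
  have h3 : Module.finrank ℝ (Module.Dual ℝ A) = 0 := by
    rw [← finrank_top ℝ (Module.Dual ℝ A), ← h1, finrank_bot]
  rw [Subspace.dual_finrank_eq] at h3
  omega

/-- The elements of `L` which correspond to the matrices `E_(0 j)` and `E_(j 0)`. -/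
theorem exists_slDat [LieAlgebra.IsSimple ℝ L] (h : CartanBasis θ b) (hA : MaxFlat θ A) (h2 : 1 ≤ Module.finrank ℝ A) (hT : IsTypeA (rootsL A))
    (h1 : ∀ φ ∈ rootsL A, ∀ y z : L, Wv A φ y → Wv A φ z → y ≠ 0 → ∃ c : ℝ, z = c • y) :
    ∃ x y : Fin (Module.finrank ℝ A) → L, SlDat x y := by
  have hF : Module.Finite ℝ L := Module.Finite.of_basis b
  have hne := roots_nonempty h hA h2
  obtain ⟨B, hB⟩ := exists_rootA hT (span_roots h hA) hne (r := Module.finrank ℝ A) Subspace.dual_finrank_eq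
  obtain ⟨τ, hτ⟩ := exists_tau h hA
  have hBr : ∀ j, B j ∈ rootsL A := fun j => by rw [hB]; exact Or.inl ⟨j, rfl⟩
  have hBs : ∀ j k, j ≠ k → B k - B j ∈ rootsL A := fun j k hjk => by rw [hB]; exact Or.inr (Or.inr ⟨j, k, hjk, rfl⟩)
  -- the relations
  have hrel : ∀ j k, j ≠ k → 2 * B k (τ (B j)) = B j (τ (B j)) := by
    intro j k hjk
    exact rel hτ h hA hne h1 (hBr j) (hBr k) (hBs j k hjk) (hB.not_add j k).1 (hB.not_add j k).2 (hB.not_sub hjk).1 (hB.not_sub hjk).2
  obtain ⟨j0⟩ : Nonempty (Fin (Module.finrank ℝ A)) := ⟨⟨0, h2⟩⟩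
  obtain ⟨q, hq⟩ : ∃ q, q = B j0 (τ (B j0)) := ⟨_, rfl⟩
  have hqp : 0 < q := by
    rw [hq]
    exact tau_pos hτ h hA (hBr j0).1
  have hqj : ∀ j, B j (τ (B j)) = q := by
    intro j
    by_cases hj : j = j0
    · rw [hj, hq]
    · rw [hq, ← hrel j0 j (fun h => hj h.symm), ← hrel j j0 hj, tau_symm hτ]
  have hBk : ∀ j k, B k (τ (B j)) = (q / 2) * (1 + if j = k then 1 else 0) := by
    intro j k
    split_ifs with hjk
    · rw [← hjk, hqj]; ring
    · have := hrel j k hjk
      rw [hqj] at this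
      linarith
  -- the elements
  have hx : ∀ j, ∃ x : L, x ≠ 0 ∧ Wv A (B j) x := fun j => (hBr j).2
  choose x hx0 hx using hx
  have hy : ∀ j, ∃ y : L, Wv A (-B j) y ∧ killingForm ℝ L (x j) y = 2 / q := by
    intro j
    have hp := pos h (hx0 j)
    refine ⟨((2 / q) / killingForm ℝ L (x j) (θ (x j))) • θ (x j), ((hx j).theta hA).smul _, ?_⟩
    rw [map_smul, smul_eq_mul, div_mul_cancel₀]
    intro h3
    rw [h3] at hp
    norm_num at hp
  choose y hy hxy using hy
  have hy0 : ∀ j, y j ≠ 0 := by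
    intro j h3
    have h4 := hxy j
    rw [h3, map_zero] at h4
    have : 0 < 2 / q := by positivity
    exact this.ne h4
  have hlie : ∀ j, ⁅x j, y j⁆ = (2 / q) • (τ (B j) : L) := by
    intro j
    rw [lie_tau hτ h hA hne h1 (hx j) (hy j), hxy]
  have hyx : ∀ j, ⁅y j, x j⁆ = -((2 / q) • (τ (B j) : L)) := by
    intro j
    rw [← lie_skew, hlie]
  have hc : ∀ j k, (2 / q) * B k (τ (B j)) = 1 + if j = k then (1 : ℝ) else 0 := by
    intro j k
    rw [hBk]
    field_simp
  have hhx : ∀ j k, ⁅⁅y j, x j⁆, x k⁆ = -((1 + if j = k then (1 : ℝ) else 0) • x k) := by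
    intro j k
    rw [hyx, neg_lie, smul_lie, hx k (τ (B j)), smul_smul, hc]
  have hhy : ∀ j k, ⁅⁅y j, x j⁆, y k⁆ = (1 + if j = k then (1 : ℝ) else 0) • y k := by
    intro j k
    rw [hyx, neg_lie, smul_lie, hy k (τ (B j)), LinearMap.neg_apply, smul_smul, mul_neg, hc, neg_smul, neg_neg]
  have hxx : ∀ j k, ⁅x j, x k⁆ = 0 := fun j k => ((hx j).lie (hx k)).eq_zero (hB.not_add j k).1 (hB.not_add j k).2
  have hyy : ∀ j k, ⁅y j, y k⁆ = 0 := by
    intro j k
    have h3 := (hy j).lie (hy k)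
    rw [← neg_add] at h3
    refine h3.eq_zero (fun h4 => (hB.not_add j k).1 ?_) (neg_ne_zero.2 (hB.not_add j k).2)
    have := hB.neg h4
    rwa [neg_neg] at this
  have hyxx : ∀ j k l, ⁅⁅y j, x k⁆, x l⁆ = -((if j = l then (1 : ℝ) else 0) • x k) - (if j = k then (1 : ℝ) else 0) • x l := by
    intro j k l
    by_cases hjk : j = k
    · subst hjk
      rw [hhx, if_pos rfl]
      by_cases hjl : j = l
      · subst hjl
        rw [if_pos rfl]
        module
      · rw [if_neg hjl]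
        module
    · rw [if_neg hjk, zero_smul, sub_zero]
      by_cases hjl : j = l
      · subst hjl
        rw [if_pos rfl, lie_lie, hxx, lie_zero, zero_sub, ← lie_skew, neg_neg, hhx, if_neg hjk]
        module
      · rw [if_neg hjl, zero_smul, neg_zero]
        have h3 := ((hy j).lie (hx k)).lie (hx l)
        rw [neg_add_eq_sub] at h3
        exact h3.eq_zero (hB.not_three hjk hjl).1 (hB.not_three hjk hjl).2
  have hyxy : ∀ j k l, ⁅⁅y j, x k⁆, y l⁆ = (if k = l then (1 : ℝ) else 0) • y j + (if j = k then (1 : ℝ) else 0) • y l := by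
    intro j k l
    by_cases hjk : j = k
    · subst hjk
      rw [hhy, if_pos rfl]
      by_cases hjl : j = l
      · subst hjl
        rw [if_pos rfl]
        module
      · rw [if_neg hjl]
        module
    · rw [if_neg hjk, zero_smul, add_zero]
      by_cases hkl : k = l
      · subst hkl
        rw [if_pos rfl, lie_lie, hyy, lie_zero, sub_zero, ← lie_skew (y j), ← lie_skew (x k), neg_lie, neg_neg, hhy, if_neg (fun h => hjk h.symm)]
        module
      · rw [if_neg hkl, zero_smul]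
        have h3 := ((hy j).lie (hx k)).lie (hy l)
        have e : -B j + B k + -B l = -(B j - B k + B l) := by abel
        rw [e] at h3
        refine h3.eq_zero (fun h4 => (hB.not_three (fun h => hjk h.symm) hkl).1 ?_) (neg_ne_zero.2 (hB.not_three (fun h => hjk h.symm) hkl).2)
        have := hB.neg h4
        rwa [neg_neg] at this
  refine ⟨x, y, hxx, hyy, hyxx, hyxy, hx0, hy0, ?_⟩
  rw [← span_weights h hA, Submodule.span_le]
  rintro z ⟨φ, hz⟩
  by_cases hφ0 : φ = 0
  · rw [hφ0] at hz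
    have hzA := mem_of_zero h hA hne h1 hz
    obtain ⟨ψ, hψ⟩ := τ.surjective ⟨z, hzA⟩
    have h3 : z = ∑ j, B.repr ψ j • (τ (B j) : L) := by
      have h4 : (τ ψ : A) = ∑ j, B.repr ψ j • τ (B j) := by
        conv_lhs => rw [← B.sum_repr ψ]
        simp only [map_sum, map_smul]
      have h5 := congrArg (A.subtype) (hψ.symm.trans h4)
      simp only [map_sum, map_smul] at h5
      exact h5
    rw [h3]
    refine Submodule.sum_mem _ fun j _ => ?_
    have h6 : B.repr ψ j • (τ (B j) : L) = (-(B.repr ψ j * (q / 2))) • ⁅y j, x j⁆ := by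
      rw [hyx, smul_neg, smul_smul, neg_mul, neg_smul, neg_neg]
      congr 1
      field_simp
    rw [h6]
    exact Submodule.smul_mem _ _ (Submodule.subset_span (Or.inr ⟨(j, j), rfl⟩))
  by_cases hφ : φ ∈ rootsL A
  · have hφ' := hφ
    rw [hB] at hφ'
    rcases hφ' with ⟨j, rfl⟩ | ⟨j, rfl⟩ | ⟨j, k, hjk, rfl⟩
    · obtain ⟨c, rfl⟩ := h1 _ hφ _ _ (hx j) hz (hx0 j)
      exact Submodule.smul_mem _ _ (Submodule.subset_span (Or.inl (Or.inl ⟨j, rfl⟩)))
    · obtain ⟨c, rfl⟩ := h1 _ hφ _ _ (hy j) hz (hy0 j)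
      exact Submodule.smul_mem _ _ (Submodule.subset_span (Or.inl (Or.inr ⟨j, rfl⟩)))
    · have h3 := (hy j).lie (hx k)
      rw [neg_add_eq_sub] at h3
      have h4 : ⁅y j, x k⁆ ≠ 0 := by
        intro h5
        have h6 := hyxx j k j
        rw [h5, zero_lie, if_pos rfl, if_neg hjk, zero_smul, sub_zero, one_smul] at h6
        exact hx0 k (neg_eq_zero.1 h6.symm)
      obtain ⟨c, rfl⟩ := h1 _ hφ _ _ h3 hz h4
      exact Submodule.smul_mem _ _ (Submodule.subset_span (Or.inr ⟨(j, k), rfl⟩))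
  · rw [hz.eq_zero hφ hφ0]
    exact Submodule.zero_mem _

/-- A simple real Lie algebra of type `A_r` with root spaces of dimension one is isomorphic to `sl(r + 1, ℝ)`. -/
theorem iso_sl_of_typeA [LieAlgebra.IsSimple ℝ L] (h : CartanBasis θ b) (hA : MaxFlat θ A) (h2 : 1 ≤ Module.finrank ℝ A) (hT : IsTypeA (rootsL A))
    (h1 : ∀ φ ∈ rootsL A, ∀ y z : L, Wv A φ y → Wv A φ z → y ≠ 0 → ∃ c : ℝ, z = c • y) :
    Nonempty (L ≃ₗ⁅ℝ⁆ LieAlgebra.SpecialLinear.sl (Fin (Module.finrank ℝ A + 1)) ℝ) := by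
  obtain ⟨x, y, hxy⟩ := exists_slDat h hA h2 hT h1
  exact hxy.iso_sl

end Pool.Agent.Helper69.SLN
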